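import Mathlib
import Pool.Agent.Helper913.EPatFinal

set_option autoImplicit false

/-!
Patterns without tell-tales, even modulo finite sets of words.
-/

namespace Pool.Agent.Y375.EP

open Pool.Agent.Helper913.EPat

section A
variable {S : Type}

theorem phi_append (rs : List S → Vr → List S) (ws xs : List (List S)) (j : Fin 3) :
    phi rs (ws ++ xs) (Sum.inl j) = phi rs ws (Sum.inl j) ++ phi rs xs (Sum.inl j) := by
  simp [phi]

theorem mono (rs : List S → Vr → List S) (ws xs : List (List S)) (hd : ∀ w ∈ xs, w ∉ ws)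
    (α : List (Vr ⊕ S)) : Lang (msub (phi rs ws) α) ⊆ Lang (msub (phi rs (ws ++ xs)) α) := by
  classical
  rintro w ⟨σ, rfl⟩
  refine ⟨fun v => match v with
    | Sum.inl v => σ (Sum.inl v)
    | Sum.inr (u, c) => if u ∈ ws then σ (Sum.inr (u, c)) else [], ?_⟩
  rw [app_msub, app_msub]
  apply app_congr
  intro v _
  rcases v with j | p
  · rw [phi_append, app_append]
    have h1 : ∀ l : List (List S), (∀ u ∈ l, u ∈ ws) → app (fun v => match v with
        | Sum.inl v => σ (Sum.inl v)
        | Sum.inr (u, c) => if u ∈ ws then σ (Sum.inr (u, c)) else []) (phi rs l (Sum.inl j)) =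
        app σ (phi rs l (Sum.inl j)) := by
      intro l hl
      apply app_congr
      intro v hv
      rcases v with v | ⟨u, c⟩
      · rfl
      · have : u ∈ l := by
          simp only [phi, List.mem_flatMap, List.mem_map] at hv
          obtain ⟨u', hu', c', _, hc⟩ := hv
          simp only [Sum.inl.injEq, Sum.inr.injEq, Prod.mk.injEq] at hc
          rw [← hc.1]; exact hu'
        simp only [hl u this, if_true]
    have h2 : ∀ l : List (List S), (∀ u ∈ l, u ∉ ws) → app (fun v => match v with
        | Sum.inl v => σ (Sum.inl v)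
        | Sum.inr (u, c) => if u ∈ ws then σ (Sum.inr (u, c)) else []) (phi rs l (Sum.inl j)) =
        [] := by
      intro l hl
      induction l with
      | nil => simp [phi]
      | cons u l ih =>
        have ih' := ih (fun u' hu' => hl u' (List.mem_cons_of_mem _ hu'))
        have e1 : phi rs (u :: l) (Sum.inl j) =
            (rs u (Sum.inl j)).map (fun c => (Sum.inl (Sum.inr (u, c)) :
              (Vr ⊕ (List S × S)) ⊕ S)) ++ phi rs l (Sum.inl j) := by simp [phi]
        rw [e1, app_append, ih', List.append_nil]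
        have hu := hl u (by simp)
        generalize rs u (Sum.inl j) = m
        induction m with
        | nil => simp
        | cons c m ihm =>
          rw [List.map_cons, app_inl, ihm]
          simp [hu]
    rw [h1 ws (fun _ h => h), h2 xs hd, List.append_nil]
  · simp [phi]

/-- no finite set of words is a tell-tale, even modulo finite sets -/
theorem no_telltale_inf [DecidableEq S] (n : ℕ) (hn : 1 ≤ n) (T : ℕ → S) (d e : S) (hde : d ≠ e)
    (hT : ∀ j ≤ n, T j ≠ d ∧ T j ≠ e) (hsurj : ∀ c : S, c = d ∨ c = e ∨ ∃ j ≤ n, T j = c)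
    (s : List (List S)) (hs : ∀ w ∈ s, w ∈ Lang (al n T)) :
    ∃ β : List ((Vr ⊕ (List S × S)) ⊕ S), (∀ w ∈ s, w ∈ Lang β) ∧ Lang β ⊆ Lang (al n T) ∧
      (Lang (al n T) \ Lang β).Infinite ∧ (∀ a, Sum.inr a ∈ β → Sum.inr a ∈ al n T) ∧
      β ≠ [] := by
  classical
  have hex : ∀ w : List S, ∃ σ : Vr → List S, w ∈ Lang (al n T) →
      (app σ (al n T) = w ∧ ∀ c ∈ σ (Sum.inl 2), c ∈ σ (Sum.inl 0) ∨ c ∈ σ (Sum.inl 1)) := by
    intro w
    by_cases hw : w ∈ Lang (al n T)
    · obtain ⟨σ, rfl⟩ := hw
      obtain ⟨σ', h1, h2⟩ := redundant n T d e hsurj σ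
      exact ⟨σ', fun _ => ⟨h1, h2⟩⟩
    · exact ⟨fun _ => [], fun h => absurd h hw⟩
  choose rs hrs using hex
  have hsub : ∀ ws : List (List S), Lang (msub (phi rs ws) (al n T)) ⊆ Lang (al n T) := by
    rintro ws w ⟨σ, rfl⟩
    rw [app_msub]
    exact ⟨_, rfl⟩
  refine ⟨msub (phi rs s.dedup) (al n T), ?_, hsub _, ?_, ?_, ?_⟩
  · intro w hw
    exact word_mem rs _ (List.nodup_dedup s) w (List.mem_dedup.mpr hw) _ (hrs w (hs w hw)).1
  · intro hfin
    set F : Finset (List S) := hfin.toFinset with hF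
    have hFm : ∀ w, w ∈ F ↔ w ∈ Lang (al n T) ∧ w ∉ Lang (msub (phi rs s.dedup) (al n T)) := by
      intro w
      rw [hF, Set.Finite.mem_toFinset]
      rfl
    have hdis : ∀ w ∈ F.toList, w ∉ s.dedup := by
      intro w hw hws
      have h1 := (hFm w).1 (Finset.mem_toList.1 hw)
      exact h1.2 (word_mem rs _ (List.nodup_dedup s) w hws _ (hrs w h1.1).1)
    have hnd : (s.dedup ++ F.toList).Nodup := by
      rw [List.nodup_append]
      refine ⟨List.nodup_dedup s, F.nodup_toList, ?_⟩
      intro a ha b hb hab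
      exact hdis b hb (hab ▸ ha)
    have hall : ∀ w ∈ s.dedup ++ F.toList, w ∈ Lang (al n T) := by
      intro w hw
      rcases List.mem_append.1 hw with h | h
      · exact hs w (List.mem_dedup.1 h)
      · exact ((hFm w).1 (Finset.mem_toList.1 h)).1
    refine strict n hn T d e hde hT rs (s.dedup ++ F.toList) (fun w hw => (hrs w (hall w hw)).2) ?_
    refine Set.Subset.antisymm (hsub _) ?_
    intro w hw
    by_cases h : w ∈ Lang (msub (phi rs s.dedup) (al n T))
    · exact mono rs _ _ hdis _ h
    · refine word_mem rs _ hnd w ?_ _ (hrs w hw).1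
      exact List.mem_append_right _ (Finset.mem_toList.2 ((hFm w).2 ⟨hw, h⟩))
  · intro a ha
    rcases inr_mem_msub ha with h | ⟨v, hv⟩
    · exact h
    · exact absurd hv (phi_no_term _ _ v a)
  · intro h0
    have : (al n T) ≠ [] := by
      intro h
      have := vy_mem_al n hn T 0
      rw [h] at this
      simp at this
    have h1 := countP_msub_ge (phi rs s.dedup) (al n T)
    rw [h0] at h1
    have h2 : Sum.inr (T 0) ∈ al n T := by
      unfold al
      rw [List.mem_flatMap]
      refine ⟨0, List.mem_range.mpr (by omega), ?_⟩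
      simp [bp]
    have h3 : 0 < (al n T).countP Sum.isRight := by
      rw [List.countP_pos_iff]
      exact ⟨_, h2, rfl⟩
    rw [List.countP_nil] at h1
    omega

end A

section B
variable {W G : Type}

theorem getD_of_prefix {l m : List W} (h : l <+: m) {i : ℕ} (hi : i < l.length) (x : W) :
    m.getD i x = l[i] := by
  obtain ⟨r, rfl⟩ := h
  rw [List.getD_eq_getElem _ _ (by simp; omega), List.getElem_append_left hi]

/-- enumeration of a countable nonempty set in which every element occurs infinitely often -/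
theorem fat_enum [Countable W] {X : Set W} (hX : X.Nonempty) :
    ∃ e : ℕ → W, (∀ n, e n ∈ X) ∧ ∀ w ∈ X, {n | e n = w}.Infinite := by
  obtain ⟨e, he⟩ := (Set.to_countable X).exists_eq_range hX
  refine ⟨fun n => e n.unpair.1, fun n => he ▸ ⟨_, rfl⟩, fun w hw => ?_⟩
  rw [he] at hw
  obtain ⟨i, rfl⟩ := hw
  refine Set.infinite_of_injective_forall_mem (f := fun j => Nat.pair i j) ?_ ?_
  · intro a b hab
    have := congrArg (fun m => (Nat.unpair m).2) hab
    simpa using this
  · intro j
    simp

/-- learning in the limit up to finite sets from fat texts needs tell-tales up to finite sets -/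
theorem gold_star [Countable W] (L : G → Set W) (C : Set G) (g0 : G) (hg0 : g0 ∈ C)
    (hne : ∀ g ∈ C, (L g).Nonempty)
    (hno : ∀ s : List W, (∀ w ∈ s, w ∈ L g0) →
      ∃ g ∈ C, (∀ w ∈ s, w ∈ L g) ∧ L g ⊆ L g0 ∧ (L g0 \ L g).Infinite)
    (M : List W → Set W) :
    ∃ g ∈ C, L g ⊆ L g0 ∧ ∃ t : ℕ → W, (∀ n, t n ∈ L g) ∧ (∀ w ∈ L g, {n | t n = w}.Infinite) ∧
      ∀ N, ∃ n ≥ N, (symmDiff (M ((List.range n).map t)) (L g)).Infinite := by
  classical
  by_contra hcon0
  have hM : ∀ g ∈ C, L g ⊆ L g0 → ∀ t : ℕ → W, (∀ n, t n ∈ L g) →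
      (∀ w ∈ L g, {n | t n = w}.Infinite) →
      ∃ N, ∀ n ≥ N, (symmDiff (M ((List.range n).map t)) (L g)).Finite := by
    intro g hg hsub t h1 h2
    by_contra hc
    apply hcon0
    refine ⟨g, hg, hsub, t, h1, h2, fun N => ?_⟩
    by_contra hc'
    apply hc
    refine ⟨N, fun n hn => ?_⟩
    by_contra hinf
    exact hc' ⟨n, hn, hinf⟩
  -- locking sequence
  have hlock : ∃ s : List W, (∀ w ∈ s, w ∈ L g0) ∧
      ∀ s' : List W, (∀ w ∈ s', w ∈ L g0) → (symmDiff (M (s ++ s')) (L g0)).Finite := by
    by_contra hcon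
    have hneg : ∀ s : List W, (∀ w ∈ s, w ∈ L g0) →
        ∃ s' : List W, (∀ w ∈ s', w ∈ L g0) ∧ ¬ (symmDiff (M (s ++ s')) (L g0)).Finite := by
      intro s hs
      by_contra hc
      apply hcon
      refine ⟨s, hs, fun s' hs' => ?_⟩
      by_contra hne'
      exact hc ⟨s', hs', hne'⟩
    obtain ⟨e, he1, he2⟩ := fat_enum (hne g0 hg0)
    let ext : List W → List W := fun s =>
      if h : ∃ s' : List W, (∀ w ∈ s', w ∈ L g0) ∧ ¬ (symmDiff (M (s ++ s')) (L g0)).Finite
      then h.choose else []
    have hext1 : ∀ s, ∀ w ∈ ext s, w ∈ L g0 := by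
      intro s
      by_cases h : ∃ s' : List W, (∀ w ∈ s', w ∈ L g0) ∧
          ¬ (symmDiff (M (s ++ s')) (L g0)).Finite
      · simp only [ext, dif_pos h]
        exact h.choose_spec.1
      · intro w hw
        simp only [ext] at hw
        rw [dif_neg h] at hw
        exact absurd hw List.not_mem_nil
    have hext2 : ∀ s, (∀ w ∈ s, w ∈ L g0) →
        ¬ (symmDiff (M (s ++ ext s)) (L g0)).Finite := by
      intro s hs
      have h := hneg s hs
      simp only [ext, dif_pos h]
      exact h.choose_spec.2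
    let sq : ℕ → List W := fun n => Nat.rec [] (fun n s => s ++ ext s ++ [e n]) n
    have hsq : ∀ n, sq (n + 1) = sq n ++ ext (sq n) ++ [e n] := fun n => rfl
    have hlen : ∀ n, n ≤ (sq n).length := by
      intro n
      induction n with
      | zero => simp
      | succ n ih => rw [hsq]; simp; omega
    have hpre : ∀ m n, m ≤ n → sq m <+: sq n := by
      intro m n hmn
      induction n, hmn using Nat.le_induction with
      | base => exact List.prefix_refl _
      | succ n _ ih =>
        refine ih.trans ?_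
        rw [hsq, List.append_assoc]
        exact List.prefix_append _ _
    have hmem : ∀ n, ∀ w ∈ sq n, w ∈ L g0 := by
      intro n
      induction n with
      | zero => intro w hw; simp [sq] at hw
      | succ n ih =>
        intro w hw
        rw [hsq] at hw
        simp only [List.mem_append, List.mem_singleton] at hw
        rcases hw with (hw | hw) | hw
        · exact ih w hw
        · exact hext1 _ w hw
        · rw [hw]; exact he1 n
    let t : ℕ → W := fun i => (sq (i + 1)).getD i (e 0)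
    have ht : ∀ (l : List W) (m : ℕ), l <+: sq m → (List.range l.length).map t = l := by
      intro l m hl
      apply List.ext_getElem
      · simp
      · intro i h1 h2
        simp only [List.getElem_map, List.getElem_range]
        have hi1 : i < (sq (i + 1)).length := lt_of_lt_of_le (Nat.lt_succ_self i) (hlen (i + 1))
        have e1 : (sq (max m (i + 1))).getD i (e 0) = l[i] :=
          getD_of_prefix (hl.trans (hpre _ _ (le_max_left _ _))) h2 _
        have e2 : (sq (max m (i + 1))).getD i (e 0) = (sq (i + 1))[i] :=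
          getD_of_prefix (hpre _ _ (le_max_right _ _)) hi1 _
        have e3 : t i = (sq (i + 1))[i] := List.getD_eq_getElem _ _ hi1
        rw [e3, ← e2, e1]
    have htm : ∀ i, t i ∈ L g0 := by
      intro i
      have hi1 : i < (sq (i + 1)).length := lt_of_lt_of_le (Nat.lt_succ_self i) (hlen (i + 1))
      have e3 : t i = (sq (i + 1))[i] := List.getD_eq_getElem _ _ hi1
      rw [e3]
      exact hmem (i + 1) _ (List.getElem_mem hi1)
    have hte : ∀ n, t (sq n ++ ext (sq n)).length = e n := by
      intro n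
      have h1 := ht (sq (n + 1)) (n + 1) (List.prefix_refl _)
      have h2 : (sq n ++ ext (sq n)).length < (sq (n + 1)).length := by
        rw [hsq]; simp
      have h3 : ((List.range (sq (n + 1)).length).map t)[(sq n ++ ext (sq n)).length]'(by
          simpa using h2) = (sq (n + 1))[(sq n ++ ext (sq n)).length] := by
        simp only [h1]
      rw [List.getElem_map, List.getElem_range] at h3
      rw [h3]
      simp only [hsq]
      rw [List.getElem_append_right (le_refl _)]
      simp
    have hinf : ∀ w ∈ L g0, {n | t n = w}.Infinite := by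
      intro w hw
      refine Set.infinite_of_forall_exists_gt fun a => ?_
      obtain ⟨b, hb, hab⟩ := (he2 w hw).exists_gt a
      refine ⟨(sq b ++ ext (sq b)).length, ?_, ?_⟩
      · show t _ = w
        rw [hte]; exact hb
      · have := hlen b
        rw [List.length_append]
        omega
    obtain ⟨N, hN⟩ := hM g0 hg0 (le_refl _) t htm hinf
    have h2 := hN (sq N ++ ext (sq N)).length (by
        have := hlen N
        rw [List.length_append]
        omega)
    rw [ht (sq N ++ ext (sq N)) (N + 1) (by rw [hsq]; exact List.prefix_append _ _)] at h2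
    exact hext2 _ (hmem N) h2
  obtain ⟨s, hs, hsM⟩ := hlock
  obtain ⟨g, hg, hsg, hsub, hinfd⟩ := hno s hs
  obtain ⟨e, he1, he2⟩ := fat_enum (hne g hg)
  let t : ℕ → W := fun n => if h : n < s.length then s[n] else e (n - s.length)
  have ht : ∀ m, (List.range (s.length + m)).map t = s ++ (List.range m).map e := by
    intro m
    apply List.ext_getElem
    · simp
    · intro i h1 h2
      simp only [List.getElem_map, List.getElem_range, t]
      by_cases hi : i < s.length
      · rw [dif_pos hi, List.getElem_append_left hi]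
      · rw [dif_neg hi, List.getElem_append_right (by omega)]
        simp
  have htm : ∀ i, t i ∈ L g := by
    intro i
    by_cases hi : i < s.length
    · simp only [t, dif_pos hi]
      exact hsg _ (List.getElem_mem _)
    · simp only [t, dif_neg hi]
      exact he1 _
  have hinf : ∀ w ∈ L g, {n | t n = w}.Infinite := by
    intro w hw
    refine Set.infinite_of_forall_exists_gt fun a => ?_
    obtain ⟨b, hb, hab⟩ := (he2 w hw).exists_gt a
    refine ⟨s.length + b, ?_, by omega⟩
    show t _ = w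
    have : ¬ (s.length + b < s.length) := by omega
    simp only [t, dif_neg this]
    rw [Nat.add_sub_cancel_left]
    exact hb
  obtain ⟨N, hN⟩ := hM g hg hsub t htm hinf
  have h1 := hN (s.length + N) (by omega)
  rw [ht] at h1
  have h2 := hsM ((List.range N).map e) (by
    intro w hw
    obtain ⟨i, _, rfl⟩ := List.mem_map.mp hw
    exact hsub (he1 i))
  apply hinfd
  refine (h1.union h2).subset ?_
  rintro w ⟨hw1, hw2⟩
  by_cases hm : w ∈ M (s ++ (List.range N).map e)
  · left
    exact Or.inl ⟨hm, hw2⟩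
  · right
    exact Or.inr ⟨hw1, hm⟩

end B

/-- The special pattern over `k ≥ 4` letters. -/
theorem main (k : ℕ) (hk : 4 ≤ k) :
    ∃ α : List (ℕ ⊕ Fin k), α ≠ [] ∧ (∃ a b : Fin k, a ≠ b ∧ Sum.inr a ∉ α ∧ Sum.inr b ∉ α) ∧
      (∀ s : Finset (List (Fin k)), (s : Set (List (Fin k))) ⊆ Lang α →
        ∃ β : List (ℕ ⊕ Fin k), β ≠ [] ∧
          (∃ a b : Fin k, a ≠ b ∧ Sum.inr a ∉ β ∧ Sum.inr b ∉ β) ∧
          (s : Set (List (Fin k))) ⊆ Lang β ∧ Lang β ⊆ Lang α ∧ (Lang α \ Lang β).Infinite) ∧
      ∀ M : List (List (Fin k)) → Set (List (Fin k)),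
        ∃ β : List (ℕ ⊕ Fin k), β ≠ [] ∧
          (∃ a b : Fin k, a ≠ b ∧ Sum.inr a ∉ β ∧ Sum.inr b ∉ β) ∧ Lang β ⊆ Lang α ∧
          ∃ t : ℕ → List (Fin k), (∀ n, t n ∈ Lang β) ∧ (∀ w ∈ Lang β, {n | t n = w}.Infinite) ∧
            ∀ N, ∃ n ≥ N, (symmDiff (M ((List.range n).map t)) (Lang β)).Infinite := by
  classical
  obtain ⟨n, rfl⟩ : ∃ n, k = n + 3 := ⟨k - 3, by omega⟩
  have hn : 1 ≤ n := by omega
  let d : Fin (n + 3) := ⟨n + 1, by omega⟩
  let e : Fin (n + 3) := ⟨n + 2, by omega⟩
  have hde : d ≠ e := by simp [d, e]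
  let T : ℕ → Fin (n + 3) := fun j => if h : j ≤ n then ⟨j, by omega⟩ else d
  have hT : ∀ j ≤ n, T j ≠ d ∧ T j ≠ e := by
    intro j hj
    simp only [T, dif_pos hj, d, e, ne_eq, Fin.mk.injEq]
    omega
  have hsurj : ∀ c : Fin (n + 3), c = d ∨ c = e ∨ ∃ j ≤ n, T j = c := by
    intro c
    by_cases h1 : c.val ≤ n
    · right; right
      refine ⟨c.val, h1, ?_⟩
      simp [T, h1]
    · by_cases h2 : c.val = n + 1
      · left
        ext
        simp [d, h2]
      · right; left
        ext
        have := c.isLt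
        simp only [e]
        omega
  let ren : ∀ {V : Type} [Encodable V], List (V ⊕ Fin (n + 3)) → List (ℕ ⊕ Fin (n + 3)) :=
    fun {V} _ α => α.map (Sum.map Encodable.encode id)
  have hren : ∀ {V : Type} [Encodable V] [Nonempty V] (α : List (V ⊕ Fin (n + 3))),
      Lang (ren α) = Lang α := by
    intro V _ _ α
    exact Lang_map _ Encodable.encode_injective α
  have hrenr : ∀ {V : Type} [Encodable V] (α : List (V ⊕ Fin (n + 3))) (a : Fin (n + 3)),
      Sum.inr a ∈ ren α → Sum.inr a ∈ α := by
    intro V _ α a ha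
    obtain ⟨s, hs, hsa⟩ := List.mem_map.mp ha
    rcases s with v | b
    · simp at hsa
    · simp at hsa
      rw [← hsa]; exact hs
  have hnoT : ∀ c : Fin (n + 3), (c = d ∨ c = e) → Sum.inr c ∉ al n T := by
    intro c hc hmem
    obtain ⟨j, hj, rfl⟩ := inr_mem_al n T c hmem
    rcases hc with h | h
    · exact (hT j hj).1 h
    · exact (hT j hj).2 h
  have hne0 : ren (al n T) ≠ [] := by
    intro h
    have h1 : (al n T) = [] := by simpa [ren] using h
    have := vy_mem_al n hn T 0
    rw [h1] at this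
    simp at this
  have hq0 : ∃ a b : Fin (n + 3), a ≠ b ∧ Sum.inr a ∉ ren (al n T) ∧
      Sum.inr b ∉ ren (al n T) :=
    ⟨d, e, hde, fun h => hnoT d (Or.inl rfl) (hrenr _ _ h),
      fun h => hnoT e (Or.inr rfl) (hrenr _ _ h)⟩
  have hnt : ∀ s : List (List (Fin (n + 3))), (∀ w ∈ s, w ∈ Lang (ren (al n T))) →
      ∃ β : List (ℕ ⊕ Fin (n + 3)), (β ≠ [] ∧
        (∃ a b : Fin (n + 3), a ≠ b ∧ Sum.inr a ∉ β ∧ Sum.inr b ∉ β)) ∧
        (∀ w ∈ s, w ∈ Lang β) ∧ Lang β ⊆ Lang (ren (al n T)) ∧
        (Lang (ren (al n T)) \ Lang β).Infinite := by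
    intro s hs
    obtain ⟨β, hβ1, hβ2, hβ3, hβ4, hβ5⟩ := no_telltale_inf n hn T d e hde hT hsurj s (by
      intro w hw
      rw [← hren (al n T)]
      exact hs w hw)
    refine ⟨ren β, ⟨?_, d, e, hde, ?_, ?_⟩, ?_, ?_, ?_⟩
    · intro h
      apply hβ5
      simpa [ren] using h
    · exact fun h => hnoT d (Or.inl rfl) (hβ4 _ (hrenr _ _ h))
    · exact fun h => hnoT e (Or.inr rfl) (hβ4 _ (hrenr _ _ h))
    · intro w hw
      rw [hren]
      exact hβ1 w hw
    · rw [hren, hren]
      exact hβ2
    · rw [hren, hren]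
      exact hβ3
  refine ⟨ren (al n T), hne0, hq0, ?_, ?_⟩
  · intro s hs
    obtain ⟨β, ⟨h1, h2⟩, h3, h4, h5⟩ := hnt s.toList (fun w hw => hs (Finset.mem_toList.1 hw))
    exact ⟨β, h1, h2, fun w hw => h3 w (Finset.mem_toList.2 hw), h4, h5⟩
  · intro M
    obtain ⟨β, ⟨h1, h2⟩, h3, t, h4, h5, h6⟩ := gold_star
      (W := List (Fin (n + 3))) (G := List (ℕ ⊕ Fin (n + 3))) Lang
      {α | α ≠ [] ∧ ∃ a b : Fin (n + 3), a ≠ b ∧ Sum.inr a ∉ α ∧ Sum.inr b ∉ α}
      (ren (al n T)) ⟨hne0, hq0⟩ (fun g _ => ⟨_, fun _ => [], rfl⟩)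
      (fun s hs => by
        obtain ⟨β, hβ, h⟩ := hnt s hs
        exact ⟨β, hβ, h⟩) M
    exact ⟨β, h1, h2, h3, t, h4, h5, h6⟩

end Pool.Agent.Y375.EP
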